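import Mathlib

/-!
# An open rectangle-of-influence graph that is a CRVG but not an RVG
-/

set_option autoImplicit false

namespace Pool.Agent.Results.MP_78e958_co.PathJoin

/-- A closed axis-parallel rectangle `[a, b] × [c, d]` of positive width and height. -/
structure Rect where
  a : ℝ
  b : ℝ
  c : ℝ
  d : ℝ
  hab : a < b
  hcd : c < d

/-- The points of a rectangle. -/
def Rect.set (r : Rect) : Set (ℝ × ℝ) := Set.Icc r.a r.b ×ˢ Set.Icc r.c r.d

/-- The corners of a rectangle: `s.1` says whether it is on the right, `s.2` whether it is at the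
top. -/
def Rect.corner (r : Rect) (s : Bool × Bool) : ℝ × ℝ :=
  (if s.1 then r.b else r.a, if s.2 then r.d else r.c)

/-- `Q` is a horizontal band with its left side in `A` and its right side in `B`. -/
def HBand (Q A B : Rect) : Prop :=
  ({Q.a} ×ˢ Set.Icc Q.c Q.d) ⊆ A.set ∧ ({Q.b} ×ˢ Set.Icc Q.c Q.d) ⊆ B.set

/-- `Q` is a vertical band with its lower side in `A` and its upper side in `B`. -/
def VBand (Q A B : Rect) : Prop :=
  (Set.Icc Q.a Q.b ×ˢ {Q.c}) ⊆ A.set ∧ (Set.Icc Q.a Q.b ×ˢ {Q.d}) ⊆ B.set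

/-- Two members of a family of rectangles see each other. -/
def See {V : Type} (R : V → Rect) (u v : V) : Prop :=
  ∃ Q : Rect, (HBand Q (R u) (R v) ∨ HBand Q (R v) (R u) ∨ VBand Q (R u) (R v) ∨
    VBand Q (R v) (R u)) ∧ ∀ w, w ≠ u → w ≠ v → Disjoint Q.set (R w).set

/-- Rectangle visibility graphs. -/
def IsRVG {V : Type} (G : SimpleGraph V) : Prop :=
  ∃ R : V → Rect, (∀ u v, u ≠ v → Disjoint (R u).set (R v).set) ∧
    ∀ u v, u ≠ v → (G.Adj u v ↔ See R u v)

/-- Open rectangle-of-influence graphs; `Set.uIcc p q` is the axis-parallel rectangle with `p` and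
`q` at opposite corners. -/
def IsOpenRIG {V : Type} (G : SimpleGraph V) : Prop :=
  ∃ P : V → ℝ × ℝ, Function.Injective P ∧
    ∀ u v, u ≠ v → (G.Adj u v ↔ ∀ w, P w ∉ interior (Set.uIcc (P u) (P v)))

/-- In a family of rectangles with designated corners (eyes), `u` sees `v`. -/
def EyeSees {V : Type} (R : V → Rect) (eye : V → Bool × Bool) (u v : V) : Prop :=
  ∃ (Q : Rect) (s : Bool × Bool), Q.corner s = (R u).corner (eye u) ∧
    Q.corner (!s.1, !s.2) ∈ frontier (R v).set ∧
    Q.set ∩ (R u).set = {(R u).corner (eye u)} ∧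
    Q.set ∩ (R v).set ⊆ frontier (R v).set ∧
    ∀ w, w ≠ u → w ≠ v → Disjoint Q.set (R w).set

/-- Corner rectangle visibility graphs. -/
def IsCRVG {V : Type} (G : SimpleGraph V) : Prop :=
  ∃ (R : V → Rect) (eye : V → Bool × Bool), (∀ u v, u ≠ v → Disjoint (R u).set (R v).set) ∧
    ∀ u v, u ≠ v → (G.Adj u v ↔ EyeSees R eye u v ∨ EyeSees R eye v u)

/-- The join of two paths with `k` vertices each. -/
def PP (k : ℕ) : SimpleGraph (Fin k ⊕ Fin k) where
  Adj
    | .inl i, .inl j => (i : ℕ) + 1 = j ∨ (j : ℕ) + 1 = i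
    | .inr i, .inr j => (i : ℕ) + 1 = j ∨ (j : ℕ) + 1 = i
    | .inl _, .inr _ => True
    | .inr _, .inl _ => True
  symm := ⟨by
    rintro (i | i) (j | j) h
    · exact Or.symm h
    · exact h
    · exact h
    · exact Or.symm h⟩
  loopless := ⟨by
    rintro (i | i) h
    · have h' : (i : ℕ) + 1 = i ∨ (i : ℕ) + 1 = i := h
      omega
    · have h' : (i : ℕ) + 1 = i ∨ (i : ℕ) + 1 = i := h
      omega⟩

/-! ### Basic facts on rectangles -/

lemma mem_set {r : Rect} {p : ℝ × ℝ} :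
    p ∈ r.set ↔ (r.a ≤ p.1 ∧ p.1 ≤ r.b) ∧ (r.c ≤ p.2 ∧ p.2 ≤ r.d) := by
  unfold Rect.set
  rw [Set.mem_prod, Set.mem_Icc, Set.mem_Icc]

lemma disjoint_iff' {r s : Rect} :
    Disjoint r.set s.set ↔ (r.b < s.a ∨ s.b < r.a ∨ r.d < s.c ∨ s.d < r.c) := by
  rw [Set.disjoint_left]
  constructor
  · intro h
    by_contra hc
    push Not at hc
    obtain ⟨h1, h2, h3, h4⟩ := hc
    have := r.hab; have := r.hcd; have := s.hab; have := s.hcd
    refine h (a := (max r.a s.a, max r.c s.c)) ?_ ?_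
    · rw [mem_set]
      exact ⟨⟨le_max_left _ _, max_le (by linarith) (by linarith)⟩,
        ⟨le_max_left _ _, max_le (by linarith) (by linarith)⟩⟩
    · rw [mem_set]
      exact ⟨⟨le_max_right _ _, max_le (by linarith) (by linarith)⟩,
        ⟨le_max_right _ _, max_le (by linarith) (by linarith)⟩⟩
  · rintro h p hp hq
    rw [mem_set] at hp hq
    obtain ⟨⟨h1, h2⟩, h3, h4⟩ := hp
    obtain ⟨⟨h5, h6⟩, h7, h8⟩ := hq
    rcases h with h | h | h | h <;> linarith

lemma interior_rect (r : Rect) : interior r.set = Set.Ioo r.a r.b ×ˢ Set.Ioo r.c r.d := by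
  unfold Rect.set
  rw [interior_prod_eq, interior_Icc, interior_Icc]

lemma mem_frontier {r : Rect} {p : ℝ × ℝ} : p ∈ frontier r.set ↔
    p ∈ r.set ∧ (p.1 = r.a ∨ p.1 = r.b ∨ p.2 = r.c ∨ p.2 = r.d) := by
  have hclosed : IsClosed r.set := isClosed_Icc.prod isClosed_Icc
  rw [frontier, hclosed.closure_eq, interior_rect, Set.mem_sdiff, mem_set, Set.mem_prod, Set.mem_Ioo,
    Set.mem_Ioo]
  constructor
  · rintro ⟨⟨⟨h1, h2⟩, h3, h4⟩, h5⟩
    refine ⟨⟨⟨h1, h2⟩, h3, h4⟩, ?_⟩
    by_contra hc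
    push Not at hc
    exact h5 ⟨⟨lt_of_le_of_ne h1 (Ne.symm hc.1), lt_of_le_of_ne h2 hc.2.1⟩,
      ⟨lt_of_le_of_ne h3 (Ne.symm hc.2.2.1), lt_of_le_of_ne h4 hc.2.2.2⟩⟩
  · rintro ⟨h, h5⟩
    refine ⟨h, ?_⟩
    rintro ⟨⟨h6, h7⟩, h8, h9⟩
    rcases h5 with h5 | h5 | h5 | h5 <;> linarith

/-! ### Rectangle visibility graphs have few edges -/

section Edges

variable {V : Type} [Fintype V] (R : V → Rect)

/-- The horizontal segment from the right side of `u` to the left side of `v` at height `y` is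
free. -/
def Free (u v : V) (y : ℝ) : Prop :=
  ((R u).c ≤ y ∧ y ≤ (R u).d) ∧ ((R v).c ≤ y ∧ y ≤ (R v).d) ∧ (R u).b < (R v).a ∧
    ∀ w, w ≠ u → w ≠ v → ¬ ((R w).c ≤ y ∧ y ≤ (R w).d ∧ (R w).a ≤ (R v).a ∧ (R u).b ≤ (R w).b)

/-- `u` sees `v` horizontally, `u` on the left. -/
def HSee (u v : V) : Prop :=
  u ≠ v ∧ ∃ Q : Rect, HBand Q (R u) (R v) ∧ ∀ w, w ≠ u → w ≠ v → Disjoint Q.set (R w).set

variable {R}

omit [Fintype V] in
lemma HSee.free (hR : ∀ u v, u ≠ v → Disjoint (R u).set (R v).set) {u v : V} (h : HSee R u v) :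
    ∃ y1 y2, y1 < y2 ∧ ∀ y, y1 ≤ y → y ≤ y2 → Free R u v y := by
  obtain ⟨huv, Q, ⟨h1, h2⟩, h3⟩ := h
  have hcd := Q.hcd
  have hab := Q.hab
  have a1 := mem_set.1 (h1 (show (Q.a, Q.c) ∈ _ from ⟨rfl, le_refl _, hcd.le⟩))
  have a2 := mem_set.1 (h1 (show (Q.a, Q.d) ∈ _ from ⟨rfl, hcd.le, le_refl _⟩))
  have b1 := mem_set.1 (h2 (show (Q.b, Q.c) ∈ _ from ⟨rfl, le_refl _, hcd.le⟩))
  have b2 := mem_set.1 (h2 (show (Q.b, Q.d) ∈ _ from ⟨rfl, hcd.le, le_refl _⟩))
  simp only at a1 a2 b1 b2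
  obtain ⟨⟨a11, a12⟩, a13, a14⟩ := a1
  obtain ⟨-, a23, a24⟩ := a2
  obtain ⟨⟨b11, b12⟩, b13, b14⟩ := b1
  obtain ⟨-, b23, b24⟩ := b2
  have hlt : (R u).b < (R v).a := by
    rcases disjoint_iff'.1 (hR u v huv) with h | h | h | h
    · exact h
    · linarith
    · linarith
    · linarith
  refine ⟨Q.c, Q.d, hcd, fun y hy1 hy2 => ⟨⟨by linarith, by linarith⟩, ⟨by linarith, by linarith⟩,
    hlt, ?_⟩⟩
  rintro w hwu hwv ⟨c1, c2, c3, c4⟩
  rcases disjoint_iff'.1 (h3 w hwu hwv) with h | h | h | h <;> linarith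

lemma exists_top (hR : ∀ u v, u ≠ v → Disjoint (R u).set (R v).set) {u v : V} {y1 y2 : ℝ}
    (h12 : y1 < y2) (h : ∀ y, y1 ≤ y → y ≤ y2 → Free R u v y) :
    ∃ T, y1 < T ∧ (∀ y, y1 ≤ y → y < T → Free R u v y) ∧
      (T = (R u).d ∨ T = (R v).d ∨ ∃ w, T = (R w).c ∧ (R u).b < (R w).a ∧ (R w).b < (R v).a) := by
  classical
  obtain ⟨⟨u1, u2⟩, ⟨v1, v2⟩, huv, -⟩ := h y2 h12.le (le_refl _)
  obtain ⟨⟨u1', u2'⟩, ⟨v1', v2'⟩, -, hfree1⟩ := h y1 (le_refl _) h12.le
  let W : Finset V := Finset.univ.filter fun w => w ≠ u ∧ w ≠ v ∧ (R w).a ≤ (R v).a ∧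
    (R u).b ≤ (R w).b ∧ y1 < (R w).c
  let S : Finset ℝ := insert (R u).d (insert (R v).d (W.image fun w => (R w).c))
  have hS : S.Nonempty := ⟨_, Finset.mem_insert_self _ _⟩
  have hmin := S.min'_mem hS
  set T := S.min' hS with hT
  have hle : ∀ t ∈ S, T ≤ t := fun t ht => S.min'_le t ht
  have hTu : T ≤ (R u).d := hle _ (Finset.mem_insert_self _ _)
  have hTv : T ≤ (R v).d := hle _ (Finset.mem_insert_of_mem (Finset.mem_insert_self _ _))
  have hy1T : y1 < T := by
    simp only [S, Finset.mem_insert, Finset.mem_image] at hmin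
    rcases hmin with h | h | ⟨w, hw, h⟩
    · rw [h]; linarith
    · rw [h]; linarith
    · rw [← h]; exact (Finset.mem_filter.1 hw).2.2.2.2.2
  have hfree : ∀ y, y1 ≤ y → y < T → Free R u v y := by
    intro y hy hyT
    refine ⟨⟨by linarith, by linarith⟩, ⟨by linarith, by linarith⟩, huv, ?_⟩
    rintro w hwu hwv ⟨w1, w2, w3, w4⟩
    rcases lt_or_ge y1 (R w).c with h5 | h5
    · have : T ≤ (R w).c := by
        apply hle
        refine Finset.mem_insert_of_mem (Finset.mem_insert_of_mem ?_)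
        exact Finset.mem_image.2 ⟨w, Finset.mem_filter.2
          ⟨Finset.mem_univ _, hwu, hwv, w3, w4, h5⟩, rfl⟩
      linarith
    · exact hfree1 w hwu hwv ⟨h5, by linarith, w3, w4⟩
  refine ⟨T, hy1T, hfree, ?_⟩
  simp only [S, Finset.mem_insert, Finset.mem_image] at hmin
  rcases hmin with h | h | ⟨w, hw, h⟩
  · exact Or.inl h
  · exact Or.inr (Or.inl h)
  · right; right
    obtain ⟨-, hwu, hwv, w3, w4, w5⟩ := Finset.mem_filter.1 hw
    have hwcd := (R w).hcd
    have hwab := (R w).hab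
    have huab := (R u).hab
    have hvab := (R v).hab
    refine ⟨w, h.symm, ?_, ?_⟩
    · rcases disjoint_iff'.1 (hR w u hwu) with h' | h' | h' | h' <;> linarith
    · rcases disjoint_iff'.1 (hR w v hwv) with h' | h' | h' | h' <;> linarith

omit [Fintype V] in
/-- Two free segments at the same height to the right of `u` end at the same rectangle. -/
lemma free_right_unique {u v v' : V} {y : ℝ} (h : Free R u v y) (h' : Free R u v' y) : v = v' := by
  by_contra hne
  obtain ⟨⟨u1, u2⟩, ⟨v1, v2⟩, huv, hf⟩ := h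
  obtain ⟨-, ⟨v1', v2'⟩, huv', hf'⟩ := h'
  have hvab := (R v).hab
  have hvab' := (R v').hab
  have hvu : v ≠ u := by
    rintro rfl
    have := (R v).hab
    linarith
  have hvu' : v' ≠ u := by
    rintro rfl
    have := (R v').hab
    linarith
  rcases le_total (R v).a (R v').a with h1 | h1
  · exact hf' v hvu hne ⟨v1, v2, h1, by linarith⟩
  · exact hf v' hvu' (Ne.symm hne) ⟨v1', v2', h1, by linarith⟩

omit [Fintype V] in
/-- Two free segments at the same height to the left of `v` end at the same rectangle. -/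
lemma free_left_unique {u u' v : V} {y : ℝ} (h : Free R u v y) (h' : Free R u' v y) : u = u' := by
  by_contra hne
  obtain ⟨⟨u1, u2⟩, ⟨v1, v2⟩, huv, hf⟩ := h
  obtain ⟨⟨u1', u2'⟩, -, huv', hf'⟩ := h'
  have huab := (R u).hab
  have huab' := (R u').hab
  have huv1 : u ≠ v := by
    rintro rfl
    linarith
  have huv1' : u' ≠ v := by
    rintro rfl
    linarith
  rcases le_total (R u).b (R u').b with h1 | h1
  · exact hf u' (Ne.symm hne) huv1' ⟨u1', u2', by linarith, h1⟩
  · exact hf' u hne huv1 ⟨u1, u2, by linarith, h1⟩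

omit [Fintype V] in
/-- Two free segments at the same height over a common point are equal. -/
lemma free_mid_unique {u v u' v' : V} {y x : ℝ} (h : Free R u v y) (h' : Free R u' v' y)
    (hx : (R u).b < x ∧ x < (R v).a) (hx' : (R u').b < x ∧ x < (R v').a) : u = u' ∧ v = v' := by
  obtain ⟨⟨u1, u2⟩, ⟨v1, v2⟩, huv, hf⟩ := h
  obtain ⟨⟨u1', u2'⟩, ⟨v1', v2'⟩, huv', hf'⟩ := h'
  have a1 := (R u).hab
  have a2 := (R u').hab
  have a3 := (R v).hab
  have a4 := (R v').hab
  have hne1 : u ≠ v' := by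
    rintro rfl
    linarith [hx.1, hx'.2]
  have hne2 : u' ≠ v := by
    rintro rfl
    linarith [hx.2, hx'.1]
  constructor
  · by_contra hne
    rcases le_total (R u).b (R u').b with h1 | h1
    · exact hf u' (Ne.symm hne) hne2 ⟨u1', u2', by linarith [hx.2, hx'.1], h1⟩
    · exact hf' u hne hne1 ⟨u1, u2, by linarith [hx.1, hx'.2], h1⟩
  · by_contra hne
    rcases le_total (R v).a (R v').a with h1 | h1
    · exact hf' v (Ne.symm hne2) hne ⟨v1, v2, h1, by linarith [hx.2, hx'.1]⟩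
    · exact hf v' (Ne.symm hne1) (Ne.symm hne) ⟨v1', v2', h1, by linarith [hx.1, hx'.2]⟩

/-- There are at most `3 n` horizontally visible pairs. -/
lemma card_hsee (hR : ∀ u v, u ≠ v → Disjoint (R u).set (R v).set) :
    {p : V × V | HSee R p.1 p.2}.ncard ≤ 3 * Fintype.card V := by
  classical
  have hdata : ∀ p : {p : V × V // HSee R p.1 p.2}, ∃ t : Fin 3 × V, ∃ y1 T : ℝ, y1 < T ∧
      (∀ y, y1 ≤ y → y < T → Free R p.1.1 p.1.2 y) ∧
      ((t.1 = 0 ∧ t.2 = p.1.1 ∧ T = (R p.1.1).d) ∨ (t.1 = 1 ∧ t.2 = p.1.2 ∧ T = (R p.1.2).d) ∨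
        (t.1 = 2 ∧ T = (R t.2).c ∧ (R p.1.1).b < (R t.2).a ∧ (R t.2).b < (R p.1.2).a)) := by
    rintro ⟨⟨u, v⟩, h⟩
    obtain ⟨y1, y2, h12, hy⟩ := HSee.free hR h
    obtain ⟨T, hT1, hT2, hT3⟩ := exists_top hR h12 hy
    rcases hT3 with h3 | h3 | ⟨w, h3, h4, h5⟩
    · exact ⟨(0, u), y1, T, hT1, hT2, Or.inl ⟨rfl, rfl, h3⟩⟩
    · exact ⟨(1, v), y1, T, hT1, hT2, Or.inr (Or.inl ⟨rfl, rfl, h3⟩)⟩
    · exact ⟨(2, w), y1, T, hT1, hT2, Or.inr (Or.inr ⟨rfl, h3, h4, h5⟩)⟩
  choose f hf using hdata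
  have hinj : Function.Injective f := by
    rintro ⟨⟨u, v⟩, hp⟩ ⟨⟨u', v'⟩, hp'⟩ heq
    obtain ⟨y1, T, h1, h2, h3⟩ := hf ⟨⟨u, v⟩, hp⟩
    obtain ⟨y1', T', h1', h2', h3'⟩ := hf ⟨⟨u', v'⟩, hp'⟩
    rw [heq] at h3
    generalize f ⟨⟨u', v'⟩, hp'⟩ = t at h3 h3'
    simp only at h2 h2' h3 h3'
    have hTT : T = T' ∧ (u = u' ∨ v = v' ∨ ∃ x, ((R u).b < x ∧ x < (R v).a) ∧
        ((R u').b < x ∧ x < (R v').a)) := by
      rcases h3 with ⟨a1, a2, a3⟩ | ⟨a1, a2, a3⟩ | ⟨a1, a2, a3, a4⟩ <;>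
        rcases h3' with ⟨b1, b2, b3⟩ | ⟨b1, b2, b3⟩ | ⟨b1, b2, b3, b4⟩ <;>
        first
          | (rw [a1] at b1; exact absurd b1 (by decide))
          | skip
      · have : u = u' := a2.symm.trans b2
        exact ⟨by rw [a3, b3, this], Or.inl this⟩
      · have : v = v' := a2.symm.trans b2
        exact ⟨by rw [a3, b3, this], Or.inr (Or.inl this)⟩
      · have hab := (R t.2).hab
        exact ⟨by rw [a2, b2], Or.inr (Or.inr ⟨(R t.2).a, ⟨a3, by linarith⟩, ⟨b3, by linarith⟩⟩)⟩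
    obtain ⟨rfl, hTT⟩ := hTT
    obtain ⟨y, hy1, hy2⟩ := exists_between (max_lt h1 h1')
    have hy3 := (max_lt_iff.1 hy1)
    have F1 := h2 y hy3.1.le hy2
    have F2 := h2' y hy3.2.le hy2
    have hfin : u = u' ∧ v = v' := by
      rcases hTT with rfl | rfl | ⟨x, hx, hx'⟩
      · exact ⟨rfl, free_right_unique F1 F2⟩
      · exact ⟨free_left_unique F1 F2, rfl⟩
      · exact free_mid_unique F1 F2 hx hx'
    obtain ⟨rfl, rfl⟩ := hfin
    rfl
  have h1 := Nat.card_le_card_of_injective f hinj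
  rw [Nat.card_prod, Nat.card_fin, Nat.card_eq_fintype_card (α := V)] at h1
  exact h1

end Edges

/-- Exchanging the coordinates. -/
def Rect.swap (r : Rect) : Rect := ⟨r.c, r.d, r.a, r.b, r.hcd, r.hab⟩

lemma swap_disjoint {r s : Rect} : Disjoint r.swap.set s.swap.set ↔ Disjoint r.set s.set := by
  rw [disjoint_iff', disjoint_iff']
  show (r.d < s.c ∨ s.d < r.c ∨ r.b < s.a ∨ s.b < r.a) ↔ _
  tauto

lemma vband_swap {Q A B : Rect} (h : VBand Q A B) : HBand Q.swap A.swap B.swap := by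
  constructor
  · rintro ⟨x, y⟩ ⟨hx, hy⟩
    have hx' : x = Q.c := hx
    have hy' : Q.a ≤ y ∧ y ≤ Q.b := hy
    have := mem_set.1 (h.1 (show (y, x) ∈ _ from ⟨hy', hx'⟩))
    exact mem_set.2 ⟨this.2, this.1⟩
  · rintro ⟨x, y⟩ ⟨hx, hy⟩
    have hx' : x = Q.d := hx
    have hy' : Q.a ≤ y ∧ y ≤ Q.b := hy
    have := mem_set.1 (h.2 (show (y, x) ∈ _ from ⟨hy', hx'⟩))
    exact mem_set.2 ⟨this.2, this.1⟩

lemma not_isRVG (k : ℕ) (hk : 13 ≤ k) : ¬ IsRVG (PP k) := by
  rintro ⟨R, hR, hadj⟩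
  have hR' : ∀ u v, u ≠ v → Disjoint (R u).swap.set (R v).swap.set :=
    fun u v h => swap_disjoint.2 (hR u v h)
  let D : Set ((Fin k ⊕ Fin k) × (Fin k ⊕ Fin k)) := {p | HSee R p.1 p.2} ∪
    {p | HSee (fun v => (R v).swap) p.1 p.2}
  have hD : ∀ u v, u ≠ v → (PP k).Adj u v → (u, v) ∈ D ∨ (v, u) ∈ D := by
    intro u v huv h
    obtain ⟨Q, hQ, hQ'⟩ := (hadj u v huv).1 h
    rcases hQ with hQ | hQ | hQ | hQ
    · exact Or.inl (Or.inl ⟨huv, Q, hQ, hQ'⟩)
    · exact Or.inr (Or.inl ⟨huv.symm, Q, hQ, fun w h1 h2 => hQ' w h2 h1⟩)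
    · exact Or.inl (Or.inr ⟨huv, Q.swap, vband_swap hQ, fun w h1 h2 =>
        swap_disjoint.2 (hQ' w h1 h2)⟩)
    · exact Or.inr (Or.inr ⟨huv.symm, Q.swap, vband_swap hQ, fun w h1 h2 =>
        swap_disjoint.2 (hQ' w h2 h1)⟩)
  have hcard : D.ncard ≤ 12 * k := by
    have h1 := card_hsee hR
    have h2 := card_hsee (R := fun v => (R v).swap) hR'
    have h3 : Fintype.card (Fin k ⊕ Fin k) = 2 * k := by simp [two_mul]
    rw [h3] at h1 h2
    have h4 : D.ncard ≤ _ := Set.ncard_union_le _ _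
    omega
  have hex : ∀ p : Fin k × Fin k, ∃ q : D, (q.1 = (.inl p.1, .inr p.2) ∨
      q.1 = (.inr p.2, .inl p.1)) := by
    intro p
    rcases hD (.inl p.1) (.inr p.2) (by simp) trivial with h | h
    · exact ⟨⟨_, h⟩, Or.inl rfl⟩
    · exact ⟨⟨_, h⟩, Or.inr rfl⟩
  choose f hf using hex
  have hinj : Function.Injective f := by
    rintro ⟨i, j⟩ ⟨i', j'⟩ h
    have h1 := hf (i, j)
    have h2 := hf (i', j')
    rw [h] at h1
    rcases h1 with h1 | h1 <;> rcases h2 with h2 | h2 <;> rw [h1] at h2 <;> simp at h2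
    · rw [h2.1, h2.2]
    · rw [h2.1, h2.2]
  have h5 := Nat.card_le_card_of_injective f hinj
  rw [Nat.card_prod, Nat.card_fin, Nat.card_coe_set_eq] at h5
  have h6 : 13 * k ≤ k * k := Nat.mul_le_mul_right _ hk
  omega

/-! ### The graph is an open rectangle-of-influence graph -/

lemma interior_uIcc (p q : ℝ × ℝ) : interior (Set.uIcc p q) =
    Set.Ioo (min p.1 q.1) (max p.1 q.1) ×ˢ Set.Ioo (min p.2 q.2) (max p.2 q.2) := by
  have : Set.uIcc p q = Set.Icc (min p.1 q.1) (max p.1 q.1) ×ˢ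
      Set.Icc (min p.2 q.2) (max p.2 q.2) := by
    rw [Set.uIcc]
    exact Set.Icc_prod_eq _ _
  rw [this, interior_prod_eq, interior_Icc, interior_Icc]

/-- The points. -/
def pts (k : ℕ) : Fin k ⊕ Fin k → ℝ × ℝ
  | .inl i => ((i : ℝ) - k, -1 - (i : ℝ))
  | .inr j => ((j : ℝ), (k : ℝ) - j)

lemma isOpenRIG (k : ℕ) : IsOpenRIG (PP k) := by
  refine ⟨pts k, ?_, ?_⟩
  · rintro (i | i) (j | j) h
    · have h1 := congrArg Prod.snd h
      simp only [pts] at h1
      have h2 : (i : ℝ) = j := by linarith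
      have h3 : i = j := Fin.ext (by exact_mod_cast h2)
      rw [h3]
    · exfalso
      have h1 := congrArg Prod.fst h
      simp only [pts] at h1
      have h2 : (i : ℝ) + 1 ≤ k := by exact_mod_cast i.2
      have h3 : (0 : ℝ) ≤ j := by positivity
      linarith
    · exfalso
      have h1 := congrArg Prod.fst h
      simp only [pts] at h1
      have h2 : (j : ℝ) + 1 ≤ k := by exact_mod_cast j.2
      have h3 : (0 : ℝ) ≤ i := by positivity
      linarith
    · have h1 := congrArg Prod.fst h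
      simp only [pts] at h1
      have h3 : i = j := Fin.ext (by exact_mod_cast h1)
      rw [h3]
  · -- reduce to ordered pairs
    have hin : ∀ p q r : ℝ × ℝ, r ∈ interior (Set.uIcc p q) ↔
        (min p.1 q.1 < r.1 ∧ r.1 < max p.1 q.1) ∧ (min p.2 q.2 < r.2 ∧ r.2 < max p.2 q.2) := by
      intro p q r
      rw [interior_uIcc, Set.mem_prod, Set.mem_Ioo, Set.mem_Ioo]
    have hll : ∀ i j : Fin k, i < j → ((i : ℕ) + 1 = j ↔
        ∀ w, pts k w ∉ interior (Set.uIcc (pts k (.inl i)) (pts k (.inl j)))) := by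
      intro i j hij
      have hij' : (i : ℝ) < j := by exact_mod_cast hij
      constructor
      · intro h w hw
        rw [hin] at hw
        simp only [pts] at hw
        rw [min_eq_left (by linarith), max_eq_right (by linarith), min_eq_right (by linarith),
          max_eq_left (by linarith)] at hw
        obtain ⟨⟨h1, h2⟩, h3, h4⟩ := hw
        rcases w with l | l
        · simp only at h1 h2
          have a1 : (i : ℝ) < l := by linarith
          have a2 : (l : ℝ) < j := by linarith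
          have a1' : (i : ℕ) < l := by exact_mod_cast a1
          have a2' : (l : ℕ) < j := by exact_mod_cast a2
          omega
        · simp only at h2
          have a1 : (j : ℝ) + 1 ≤ k := by exact_mod_cast j.2
          have a2 : (0 : ℝ) ≤ l := by positivity
          linarith
      · intro h
        by_contra hne
        have hlt : (i : ℕ) < j := hij
        have hl : (i : ℕ) + 1 < k := by
          have := j.2
          omega
        refine h (.inl ⟨(i : ℕ) + 1, hl⟩) ?_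
        rw [hin]
        simp only [pts]
        rw [min_eq_left (by linarith), max_eq_right (by linarith), min_eq_right (by linarith),
          max_eq_left (by linarith)]
        have h5 : ((i : ℕ) : ℝ) + 1 < j := by
          have : (i : ℕ) + 1 < j := by omega
          exact_mod_cast this
        push_cast
        exact ⟨⟨by linarith, by linarith⟩, by linarith, by linarith⟩
    have hrr : ∀ i j : Fin k, i < j → ((i : ℕ) + 1 = j ↔
        ∀ w, pts k w ∉ interior (Set.uIcc (pts k (.inr i)) (pts k (.inr j)))) := by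
      intro i j hij
      have hij' : (i : ℝ) < j := by exact_mod_cast hij
      constructor
      · intro h w hw
        rw [hin] at hw
        simp only [pts] at hw
        rw [min_eq_left (by linarith), max_eq_right (by linarith), min_eq_right (by linarith),
          max_eq_left (by linarith)] at hw
        obtain ⟨⟨h1, h2⟩, h3, h4⟩ := hw
        rcases w with l | l
        · simp only at h1 h2
          have a1 : (l : ℝ) + 1 ≤ k := by exact_mod_cast l.2
          have a2 : (0 : ℝ) ≤ i := by positivity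
          linarith
        · simp only at h1 h2
          have a1' : (i : ℕ) < l := by exact_mod_cast h1
          have a2' : (l : ℕ) < j := by exact_mod_cast h2
          omega
      · intro h
        by_contra hne
        have hlt : (i : ℕ) < j := hij
        have hl : (i : ℕ) + 1 < k := by
          have := j.2
          omega
        refine h (.inr ⟨(i : ℕ) + 1, hl⟩) ?_
        rw [hin]
        simp only [pts]
        rw [min_eq_left (by linarith), max_eq_right (by linarith), min_eq_right (by linarith),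
          max_eq_left (by linarith)]
        have h5 : ((i : ℕ) : ℝ) + 1 < j := by
          have : (i : ℕ) + 1 < j := by omega
          exact_mod_cast this
        push_cast
        exact ⟨⟨by linarith, by linarith⟩, by linarith, by linarith⟩
    have hlr : ∀ i j : Fin k,
        ∀ w, pts k w ∉ interior (Set.uIcc (pts k (.inl i)) (pts k (.inr j))) := by
      intro i j w hw
      rw [hin] at hw
      have a1 : (i : ℝ) + 1 ≤ k := by exact_mod_cast i.2
      have a2 : (j : ℝ) + 1 ≤ k := by exact_mod_cast j.2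
      have a3 : (0 : ℝ) ≤ i := by positivity
      have a4 : (0 : ℝ) ≤ j := by positivity
      simp only [pts] at hw
      rw [min_eq_left (by linarith), max_eq_right (by linarith), min_eq_left (by linarith),
        max_eq_right (by linarith)] at hw
      obtain ⟨⟨h1, h2⟩, h3, h4⟩ := hw
      rcases w with l | l <;> simp only at h1 h2 h3 h4 <;> linarith
    rintro (i | i) (j | j) hne
    · have hne' : i ≠ j := fun h => hne (by rw [h])
      show ((i : ℕ) + 1 = j ∨ (j : ℕ) + 1 = i) ↔ _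
      rcases lt_or_gt_of_ne hne' with h | h
      · have h' : (i : ℕ) < j := h
        rw [← hll i j h]
        omega
      · have h' : (j : ℕ) < i := h
        rw [Set.uIcc_comm, ← hll j i h]
        omega
    · exact iff_of_true trivial (hlr i j)
    · refine iff_of_true trivial ?_
      rw [Set.uIcc_comm]
      exact hlr j i
    · have hne' : i ≠ j := fun h => hne (by rw [h])
      show ((i : ℕ) + 1 = j ∨ (j : ℕ) + 1 = i) ↔ _
      rcases lt_or_gt_of_ne hne' with h | h
      · have h' : (i : ℕ) < j := h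
        rw [← hrr i j h]
        omega
      · have h' : (j : ℕ) < i := h
        rw [Set.uIcc_comm, ← hrr j i h]
        omega

/-! ### The graph is a corner rectangle visibility graph -/

section Eye

variable {V : Type} {R : V → Rect} {eye : V → Bool × Bool}

lemma sees_down {u v : V} (he : eye u = (true, false)) (h : EyeSees R eye u v) :
    ∃ X Y : ℝ, (R u).b < X ∧ Y < (R u).c ∧ (((R v).a ≤ X ∧ X ≤ (R v).b) ∧
      ((R v).c ≤ Y ∧ Y ≤ (R v).d)) ∧ ∀ w, w ≠ u → w ≠ v →
        (X < (R w).a ∨ (R w).b < (R u).b ∨ (R u).c < (R w).c ∨ (R w).d < Y) := by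
  obtain ⟨Q, ⟨s1, s2⟩, h1, h2, h3, -, h5⟩ := h
  rw [he] at h1 h3
  simp only [Rect.corner] at h1 h2 h3
  have e1 := congrArg Prod.fst h1
  have e2 := congrArg Prod.snd h1
  simp only [if_true, Bool.false_eq_true, if_false] at e1 e2 h3
  have hQ := Q.hab
  have hQ' := Q.hcd
  have hu := (R u).hab
  have hu' := (R u).hcd
  have hone : ∀ x y, (x, y) ∈ Q.set → (x, y) ∈ (R u).set → x = (R u).b ∧ y = (R u).c := by
    intro x y hx hy
    have : (x, y) ∈ Q.set ∩ (R u).set := ⟨hx, hy⟩
    rw [h3] at this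
    have h6 := Set.mem_singleton_iff.1 this
    exact ⟨congrArg Prod.fst h6, congrArg Prod.snd h6⟩
  cases s1
  · cases s2
    · exfalso
      simp only [Bool.false_eq_true, if_false] at e1 e2
      have := hone (R u).b (min Q.d (R u).d)
        (mem_set.2 ⟨⟨by rw [e1], by rw [← e1]; exact hQ.le⟩,
          ⟨le_min hQ'.le (by rw [e2]; exact hu'.le), min_le_left _ _⟩⟩)
        (mem_set.2 ⟨⟨hu.le, le_refl _⟩,
          ⟨le_min (by rw [← e2]; exact hQ'.le) hu'.le, min_le_right _ _⟩⟩)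
      have h7 : (R u).c < min Q.d (R u).d := lt_min (by rw [← e2]; exact hQ') hu'
      linarith [this.2]
    · simp only [Bool.false_eq_true, if_false, if_true, Bool.not_false, Bool.not_true] at e1 e2 h2
      refine ⟨Q.b, Q.c, by rw [← e1]; exact hQ, by rw [← e2]; exact hQ',
        mem_set.1 (mem_frontier.1 h2).1, fun w hwu hwv => ?_⟩
      rcases disjoint_iff'.1 (h5 w hwu hwv) with h | h | h | h
      · exact Or.inl h
      · exact Or.inr (Or.inl (by rw [← e1]; exact h))
      · exact Or.inr (Or.inr (Or.inl (by rw [← e2]; exact h)))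
      · exact Or.inr (Or.inr (Or.inr h))
  · exfalso
    simp only [if_true] at e1
    have hy : Q.c ≤ (R u).c ∧ (R u).c ≤ Q.d := by
      cases s2
      · simp only [Bool.false_eq_true, if_false] at e2
        exact ⟨e2.le, by rw [← e2]; exact hQ'.le⟩
      · simp only [if_true] at e2
        exact ⟨by rw [← e2]; exact hQ'.le, e2.ge⟩
    have := hone (max Q.a (R u).a) (R u).c
      (mem_set.2 ⟨⟨le_max_left _ _, max_le hQ.le (by rw [e1]; exact hu.le)⟩, hy⟩)
      (mem_set.2 ⟨⟨le_max_right _ _, max_le (by rw [← e1]; exact hQ.le) hu.le⟩,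
        ⟨le_refl _, hu'.le⟩⟩)
    have h7 : max Q.a (R u).a < (R u).b := max_lt (by rw [← e1]; exact hQ) hu
    linarith [this.1]

lemma sees_up {u v : V} (he : eye u = (true, true)) (h : EyeSees R eye u v) :
    ∃ X Y : ℝ, (R u).b < X ∧ (R u).d < Y ∧ (((R v).a ≤ X ∧ X ≤ (R v).b) ∧
      ((R v).c ≤ Y ∧ Y ≤ (R v).d)) ∧ ∀ w, w ≠ u → w ≠ v →
        (X < (R w).a ∨ (R w).b < (R u).b ∨ Y < (R w).c ∨ (R w).d < (R u).d) := by
  obtain ⟨Q, ⟨s1, s2⟩, h1, h2, h3, -, h5⟩ := h
  rw [he] at h1 h3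
  simp only [Rect.corner] at h1 h2 h3
  have e1 := congrArg Prod.fst h1
  have e2 := congrArg Prod.snd h1
  simp only [if_true] at e1 e2 h3
  have hQ := Q.hab
  have hQ' := Q.hcd
  have hu := (R u).hab
  have hu' := (R u).hcd
  have hone : ∀ x y, (x, y) ∈ Q.set → (x, y) ∈ (R u).set → x = (R u).b ∧ y = (R u).d := by
    intro x y hx hy
    have : (x, y) ∈ Q.set ∩ (R u).set := ⟨hx, hy⟩
    rw [h3] at this
    have h6 := Set.mem_singleton_iff.1 this
    exact ⟨congrArg Prod.fst h6, congrArg Prod.snd h6⟩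
  cases s1
  · cases s2
    · simp only [Bool.false_eq_true, if_false, if_true, Bool.not_false] at e1 e2 h2
      refine ⟨Q.b, Q.d, by rw [← e1]; exact hQ, by rw [← e2]; exact hQ',
        mem_set.1 (mem_frontier.1 h2).1, fun w hwu hwv => ?_⟩
      rcases disjoint_iff'.1 (h5 w hwu hwv) with h | h | h | h
      · exact Or.inl h
      · exact Or.inr (Or.inl (by rw [← e1]; exact h))
      · exact Or.inr (Or.inr (Or.inl h))
      · exact Or.inr (Or.inr (Or.inr (by rw [← e2]; exact h)))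
    · exfalso
      simp only [Bool.false_eq_true, if_false, if_true] at e1 e2
      have := hone (R u).b (max Q.c (R u).c)
        (mem_set.2 ⟨⟨by rw [e1], by rw [← e1]; exact hQ.le⟩,
          ⟨le_max_left _ _, max_le hQ'.le (by rw [e2]; exact hu'.le)⟩⟩)
        (mem_set.2 ⟨⟨hu.le, le_refl _⟩,
          ⟨le_max_right _ _, max_le (by rw [← e2]; exact hQ'.le) hu'.le⟩⟩)
      have h7 : max Q.c (R u).c < (R u).d := max_lt (by rw [← e2]; exact hQ') hu'
      linarith [this.2]
  · exfalso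
    simp only [if_true] at e1
    have hy : Q.c ≤ (R u).d ∧ (R u).d ≤ Q.d := by
      cases s2
      · simp only [Bool.false_eq_true, if_false] at e2
        exact ⟨e2.le, by rw [← e2]; exact hQ'.le⟩
      · simp only [if_true] at e2
        exact ⟨by rw [← e2]; exact hQ'.le, e2.ge⟩
    have := hone (max Q.a (R u).a) (R u).d
      (mem_set.2 ⟨⟨le_max_left _ _, max_le hQ.le (by rw [e1]; exact hu.le)⟩, hy⟩)
      (mem_set.2 ⟨⟨le_max_right _ _, max_le (by rw [← e1]; exact hQ.le) hu.le⟩,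
        ⟨hu'.le, le_refl _⟩⟩)
    have h7 : max Q.a (R u).a < (R u).b := max_lt (by rw [← e1]; exact hQ) hu
    linarith [this.1]

lemma mk_down {u v : V} (he : eye u = (true, false)) (Y : ℝ) (h1 : (R u).b < (R v).a)
    (h2 : Y < (R u).c) (h3 : (R v).c ≤ Y) (h4 : Y ≤ (R v).d)
    (h5 : ∀ w, w ≠ u → w ≠ v →
      ((R v).a < (R w).a ∨ (R w).b < (R u).b ∨ (R u).c < (R w).c ∨ (R w).d < Y)) :
    EyeSees R eye u v := by
  have hu := (R u).hab
  have hu' := (R u).hcd
  have hv := (R v).hab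
  refine ⟨⟨(R u).b, (R v).a, Y, (R u).c, h1, h2⟩, (false, true), ?_, ?_, ?_, ?_, ?_⟩
  · rw [he]
    simp [Rect.corner]
  · rw [mem_frontier, mem_set]
    simp only [Rect.corner, Bool.not_false, Bool.not_true, if_true, Bool.false_eq_true, if_false]
    exact ⟨⟨⟨le_refl _, hv.le⟩, h3, h4⟩, Or.inl trivial⟩
  · rw [he]
    simp only [Rect.corner, if_true, Bool.false_eq_true, if_false]
    ext ⟨x, y⟩
    rw [Set.mem_inter_iff, mem_set, mem_set, Set.mem_singleton_iff, Prod.mk.injEq]
    constructor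
    · rintro ⟨⟨⟨a1, a2⟩, a3, a4⟩, ⟨b1, b2⟩, b3, b4⟩
      exact ⟨le_antisymm b2 a1, le_antisymm a4 b3⟩
    · rintro ⟨rfl, rfl⟩
      exact ⟨⟨⟨le_refl _, h1.le⟩, h2.le, le_refl _⟩, ⟨hu.le, le_refl _⟩, le_refl _, hu'.le⟩
  · rintro ⟨x, y⟩ ⟨hx, hy⟩
    rw [mem_frontier]
    refine ⟨hy, Or.inl ?_⟩
    rw [mem_set] at hx hy
    exact le_antisymm hx.1.2 hy.1.1
  · intro w hwu hwv
    rw [disjoint_iff']
    exact h5 w hwu hwv

lemma mk_up {u v : V} (he : eye u = (true, true)) (Y : ℝ) (h1 : (R u).b < (R v).a)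
    (h2 : (R u).d < Y) (h3 : (R v).c ≤ Y) (h4 : Y ≤ (R v).d)
    (h5 : ∀ w, w ≠ u → w ≠ v →
      ((R v).a < (R w).a ∨ (R w).b < (R u).b ∨ Y < (R w).c ∨ (R w).d < (R u).d)) :
    EyeSees R eye u v := by
  have hu := (R u).hab
  have hu' := (R u).hcd
  have hv := (R v).hab
  refine ⟨⟨(R u).b, (R v).a, (R u).d, Y, h1, h2⟩, (false, false), ?_, ?_, ?_, ?_, ?_⟩
  · rw [he]
    simp [Rect.corner]
  · rw [mem_frontier, mem_set]
    simp only [Rect.corner, Bool.not_false, if_true]
    exact ⟨⟨⟨le_refl _, hv.le⟩, h3, h4⟩, Or.inl trivial⟩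
  · rw [he]
    simp only [Rect.corner, if_true]
    ext ⟨x, y⟩
    rw [Set.mem_inter_iff, mem_set, mem_set, Set.mem_singleton_iff, Prod.mk.injEq]
    constructor
    · rintro ⟨⟨⟨a1, a2⟩, a3, a4⟩, ⟨b1, b2⟩, b3, b4⟩
      exact ⟨le_antisymm b2 a1, le_antisymm b4 a3⟩
    · rintro ⟨rfl, rfl⟩
      exact ⟨⟨⟨le_refl _, h1.le⟩, le_refl _, h2.le⟩, ⟨hu.le, le_refl _⟩, hu'.le, le_refl _⟩
  · rintro ⟨x, y⟩ ⟨hx, hy⟩
    rw [mem_frontier]
    refine ⟨hy, Or.inl ?_⟩
    rw [mem_set] at hx hy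
    exact le_antisymm hx.1.2 hy.1.1
  · intro w hwu hwv
    rw [disjoint_iff']
    exact h5 w hwu hwv

end Eye

/-- The rectangles. -/
noncomputable def rr (k : ℕ) : Fin k ⊕ Fin k → Rect
  | .inl i => if (i : ℕ) % 2 = 0 then
      ⟨4 * i, 4 * i + 1, k + 2 + 4 * i, k + 3 + 4 * i, by linarith, by linarith⟩
    else ⟨4 * i, 4 * i + 1, -(k + 3 + 4 * i), -(k + 2 + 4 * i), by linarith, by linarith⟩
  | .inr j => ⟨4 * k + 4 * j, 4 * k + 4 * j + 1, -(j + 1), j + 1, by linarith,
      by have : (0 : ℝ) ≤ j := by positivity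
         linarith⟩

/-- The eyes. -/
def eyes (k : ℕ) : Fin k ⊕ Fin k → Bool × Bool
  | .inl i => if (i : ℕ) % 2 = 0 then (true, false) else (true, true)
  | .inr _ => (true, true)

variable {k : ℕ}

lemma rr_a (i : Fin k) : (rr k (.inl i)).a = 4 * i := by
  simp only [rr]; split_ifs <;> rfl

lemma rr_b (i : Fin k) : (rr k (.inl i)).b = 4 * i + 1 := by
  simp only [rr]; split_ifs <;> rfl

lemma rr_c0 (i : Fin k) (h : (i : ℕ) % 2 = 0) : (rr k (.inl i)).c = k + 2 + 4 * i := by
  simp only [rr]; rw [if_pos h]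

lemma rr_d0 (i : Fin k) (h : (i : ℕ) % 2 = 0) : (rr k (.inl i)).d = k + 3 + 4 * i := by
  simp only [rr]; rw [if_pos h]

lemma rr_c1 (i : Fin k) (h : ¬ (i : ℕ) % 2 = 0) : (rr k (.inl i)).c = -(k + 3 + 4 * i) := by
  simp only [rr]; rw [if_neg h]

lemma rr_d1 (i : Fin k) (h : ¬ (i : ℕ) % 2 = 0) : (rr k (.inl i)).d = -(k + 2 + 4 * i) := by
  simp only [rr]; rw [if_neg h]

lemma eyes0 (i : Fin k) (h : (i : ℕ) % 2 = 0) : eyes k (.inl i) = (true, false) := by
  simp [eyes, h]

lemma eyes1 (i : Fin k) (h : ¬ (i : ℕ) % 2 = 0) : eyes k (.inl i) = (true, true) := by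
  simp [eyes, h]

lemma eyes2 (i : Fin k) : eyes k (.inr i) = (true, true) := rfl

lemma cast_lt' {i j : Fin k} (h : (i : ℕ) < j) : (i : ℝ) + 1 ≤ j := by exact_mod_cast h

lemma cast_le_k (i : Fin k) : (i : ℝ) + 1 ≤ k := by exact_mod_cast i.2

lemma cast_nn (i : Fin k) : (0 : ℝ) ≤ i := by positivity

lemma rr_disjoint (u v : Fin k ⊕ Fin k) (huv : u ≠ v) : Disjoint (rr k u).set (rr k v).set := by
  rw [disjoint_iff']
  rcases u with i | i <;> rcases v with j | j
  · have hne : (i : ℕ) ≠ j := fun h => huv (by rw [Fin.ext h])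
    rw [rr_a, rr_b, rr_a, rr_b]
    rcases lt_or_gt_of_ne hne with h | h
    · left; have := cast_lt' h; linarith
    · right; left; have := cast_lt' h; linarith
  · left
    rw [rr_b]
    show 4 * (i : ℝ) + 1 < 4 * k + 4 * j
    have := cast_le_k i
    have := cast_nn j
    linarith
  · right; left
    rw [rr_b]
    show 4 * (j : ℝ) + 1 < 4 * k + 4 * i
    have := cast_le_k j
    have := cast_nn i
    linarith
  · have hne : (i : ℕ) ≠ j := fun h => huv (by rw [Fin.ext h])
    show 4 * (k : ℝ) + 4 * i + 1 < 4 * k + 4 * j ∨ 4 * (k : ℝ) + 4 * j + 1 < 4 * k + 4 * i ∨ _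
    rcases lt_or_gt_of_ne hne with h | h
    · left; have := cast_lt' h; linarith
    · right; left; have := cast_lt' h; linarith

/-- Visibility between the rectangles of the zigzag. -/
lemma ll_sees (i j : Fin k) (h : EyeSees (rr k) (eyes k) (.inl i) (.inl j)) :
    (i : ℕ) + 1 = j := by
  by_cases hi : (i : ℕ) % 2 = 0
  · have he : eyes k (.inl i) = (true, false) := eyes0 i hi
    obtain ⟨X, Y, h1, h2, ⟨⟨h3, h4⟩, h5, h6⟩, h7⟩ := sees_down he h
    rw [rr_b] at h1
    rw [rr_b] at h4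
    rw [rr_a] at h3
    rw [rr_c0 i hi] at h2
    have hij : (i : ℕ) < j := by
      have : (i : ℝ) < j := by linarith
      exact_mod_cast this
    by_contra hne
    have hj : ¬ (j : ℕ) % 2 = 0 := by
      intro hj
      rw [rr_c0 j hj] at h5
      have := cast_lt' hij
      linarith
    have hlt : (i : ℕ) + 1 < k := by
      have := j.2
      omega
    have hmid : ¬ ((⟨(i : ℕ) + 1, hlt⟩ : Fin k) : ℕ) % 2 = 0 := by
      show ¬ ((i : ℕ) + 1) % 2 = 0
      omega
    have h8 := h7 (.inl ⟨(i : ℕ) + 1, hlt⟩) (by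
        intro h
        have := congrArg Fin.val (Sum.inl_injective h)
        simp at this) (by
        intro h
        have := congrArg Fin.val (Sum.inl_injective h)
        simp only at this
        exact hne this)
    rw [rr_a, rr_b, rr_c1 _ hmid, rr_d1 _ hmid, rr_b, rr_c0 i hi] at h8
    rw [rr_d1 j hj] at h6
    have h9 : (i : ℝ) + 2 ≤ j := by
      have : (i : ℕ) + 2 ≤ j := by omega
      exact_mod_cast this
    have h10 := cast_nn i
    have h11 : (0 : ℝ) ≤ k := by positivity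
    push_cast at h8
    rcases h8 with h8 | h8 | h8 | h8 <;> linarith
  · have he : eyes k (.inl i) = (true, true) := eyes1 i hi
    obtain ⟨X, Y, h1, h2, ⟨⟨h3, h4⟩, h5, h6⟩, h7⟩ := sees_up he h
    rw [rr_b] at h1
    rw [rr_b] at h4
    rw [rr_a] at h3
    rw [rr_d1 i hi] at h2
    have hij : (i : ℕ) < j := by
      have : (i : ℝ) < j := by linarith
      exact_mod_cast this
    by_contra hne
    have hj : (j : ℕ) % 2 = 0 := by
      by_contra hj
      rw [rr_d1 j hj] at h6
      have := cast_lt' hij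
      linarith
    have hlt : (i : ℕ) + 1 < k := by
      have := j.2
      omega
    have hmid : ((⟨(i : ℕ) + 1, hlt⟩ : Fin k) : ℕ) % 2 = 0 := by
      show ((i : ℕ) + 1) % 2 = 0
      omega
    have h8 := h7 (.inl ⟨(i : ℕ) + 1, hlt⟩) (by
        intro h
        have := congrArg Fin.val (Sum.inl_injective h)
        simp at this) (by
        intro h
        have := congrArg Fin.val (Sum.inl_injective h)
        simp only at this
        exact hne this)
    rw [rr_a, rr_b, rr_c0 _ hmid, rr_d0 _ hmid, rr_b, rr_d1 i hi] at h8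
    rw [rr_c0 j hj] at h5
    have h9 : (i : ℝ) + 2 ≤ j := by
      have : (i : ℕ) + 2 ≤ j := by omega
      exact_mod_cast this
    have h10 := cast_nn i
    have h11 : (0 : ℝ) ≤ k := by positivity
    push_cast at h8
    rcases h8 with h8 | h8 | h8 | h8 <;> linarith

lemma rr_sees (i j : Fin k) (h : EyeSees (rr k) (eyes k) (.inr i) (.inr j)) :
    (i : ℕ) + 1 = j := by
  obtain ⟨X, Y, h1, h2, ⟨⟨h3, h4⟩, h5, h6⟩, h7⟩ := sees_up (eyes2 i) h
  have h1' : 4 * (k : ℝ) + 4 * i + 1 < X := h1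
  have h2' : (i : ℝ) + 1 < Y := h2
  have h3' : 4 * (k : ℝ) + 4 * j ≤ X := h3
  have h4' : X ≤ 4 * (k : ℝ) + 4 * j + 1 := h4
  have hij : (i : ℕ) < j := by
    have : (i : ℝ) < j := by linarith
    exact_mod_cast this
  by_contra hne
  have hlt : (i : ℕ) + 1 < k := by
    have := j.2
    omega
  have h8 := h7 (.inr ⟨(i : ℕ) + 1, hlt⟩) (by
      intro h
      have := congrArg Fin.val (Sum.inr_injective h)
      simp at this) (by
      intro h
      have := congrArg Fin.val (Sum.inr_injective h)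
      simp only at this
      exact hne this)
  have h8' : X < 4 * (k : ℝ) + 4 * ((i : ℕ) + 1 : ℕ) ∨
      4 * (k : ℝ) + 4 * ((i : ℕ) + 1 : ℕ) + 1 < 4 * (k : ℝ) + 4 * i + 1 ∨
      Y < -((((i : ℕ) + 1 : ℕ) : ℝ) + 1) ∨ (((i : ℕ) + 1 : ℕ) : ℝ) + 1 < (i : ℝ) + 1 := h8
  have h9 : (i : ℝ) + 2 ≤ j := by
    have : (i : ℕ) + 2 ≤ j := by omega
    exact_mod_cast this
  have h10 := cast_nn i
  push_cast at h8'
  rcases h8' with h8 | h8 | h8 | h8 <;> linarith

lemma sees_ll (i j : Fin k) (hij : (i : ℕ) + 1 = j) :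
    EyeSees (rr k) (eyes k) (.inl i) (.inl j) := by
  have hij' : (j : ℝ) = i + 1 := by rw [← hij]; push_cast; ring
  have hk : (0 : ℝ) ≤ k := by positivity
  have hi0 := cast_nn i
  by_cases hi : (i : ℕ) % 2 = 0
  · have hj : ¬ (j : ℕ) % 2 = 0 := by omega
    refine mk_down (eyes0 i hi) (-(k + 2 + 4 * j)) ?_ ?_ ?_ ?_ ?_
    · rw [rr_a, rr_b, hij']; linarith
    · rw [rr_c0 i hi, hij']; linarith
    · rw [rr_c1 j hj]; linarith
    · rw [rr_d1 j hj]
    · rintro (l | l) hl1 hl2
      · have n1 : (l : ℕ) ≠ i := fun h => hl1 (by rw [Fin.ext h])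
        have n2 : (l : ℕ) ≠ j := fun h => hl2 (by rw [Fin.ext h])
        rw [rr_a, rr_a, rr_b, rr_b]
        rcases Nat.lt_or_ge l i with h | h
        · right; left
          have := cast_lt' h
          linarith
        · left
          have := cast_lt' (show (j : ℕ) < l by omega)
          linarith
      · left
        rw [rr_a]
        show 4 * (j : ℝ) < 4 * k + 4 * l
        have := cast_le_k j
        have := cast_nn l
        linarith
  · have hj : (j : ℕ) % 2 = 0 := by omega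
    refine mk_up (eyes1 i hi) (k + 2 + 4 * j) ?_ ?_ ?_ ?_ ?_
    · rw [rr_a, rr_b, hij']; linarith
    · rw [rr_d1 i hi, hij']; linarith
    · rw [rr_c0 j hj]
    · rw [rr_d0 j hj]; linarith
    · rintro (l | l) hl1 hl2
      · have n1 : (l : ℕ) ≠ i := fun h => hl1 (by rw [Fin.ext h])
        have n2 : (l : ℕ) ≠ j := fun h => hl2 (by rw [Fin.ext h])
        rw [rr_a, rr_a, rr_b, rr_b]
        rcases Nat.lt_or_ge l i with h | h
        · right; left
          have := cast_lt' h
          linarith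
        · left
          have := cast_lt' (show (j : ℕ) < l by omega)
          linarith
      · left
        rw [rr_a]
        show 4 * (j : ℝ) < 4 * k + 4 * l
        have := cast_le_k j
        have := cast_nn l
        linarith

lemma sees_rr (i j : Fin k) (hij : (i : ℕ) + 1 = j) :
    EyeSees (rr k) (eyes k) (.inr i) (.inr j) := by
  have hij' : (j : ℝ) = i + 1 := by rw [← hij]; push_cast; ring
  have hi0 := cast_nn i
  refine mk_up (eyes2 i) ((i : ℝ) + 3 / 2) ?_ ?_ ?_ ?_ ?_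
  · show 4 * (k : ℝ) + 4 * i + 1 < 4 * k + 4 * j
    linarith
  · show (i : ℝ) + 1 < i + 3 / 2
    linarith
  · show -((j : ℝ) + 1) ≤ i + 3 / 2
    linarith
  · show (i : ℝ) + 3 / 2 ≤ j + 1
    linarith
  · rintro (l | l) hl1 hl2
    · right; left
      rw [rr_b]
      show 4 * (l : ℝ) + 1 < 4 * k + 4 * i + 1
      have := cast_le_k l
      linarith
    · have n1 : (l : ℕ) ≠ i := fun h => hl1 (by rw [Fin.ext h])
      have n2 : (l : ℕ) ≠ j := fun h => hl2 (by rw [Fin.ext h])
      rcases Nat.lt_or_ge l i with h | h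
      · right; left
        show 4 * (k : ℝ) + 4 * l + 1 < 4 * k + 4 * i + 1
        have := cast_lt' h
        linarith
      · left
        show 4 * (k : ℝ) + 4 * j < 4 * k + 4 * l
        have := cast_lt' (show (j : ℕ) < l by omega)
        linarith

lemma sees_lr (i j : Fin k) : EyeSees (rr k) (eyes k) (.inl i) (.inr j) := by
  have hk : (0 : ℝ) ≤ k := by positivity
  have hi0 := cast_nn i
  have hj0 := cast_nn j
  have hik := cast_le_k i
  have hjk := cast_le_k j
  by_cases hi : (i : ℕ) % 2 = 0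
  · refine mk_down (eyes0 i hi) ((j : ℝ) + 1 / 2) ?_ ?_ ?_ ?_ ?_
    · rw [rr_b]
      show 4 * (i : ℝ) + 1 < 4 * k + 4 * j
      linarith
    · rw [rr_c0 i hi]; linarith
    · show -((j : ℝ) + 1) ≤ j + 1 / 2
      linarith
    · show (j : ℝ) + 1 / 2 ≤ j + 1
      linarith
    · rintro (l | l) hl1 hl2
      · have n1 : (l : ℕ) ≠ i := fun h => hl1 (by rw [Fin.ext h])
        rcases Nat.lt_or_ge l i with h | h
        · right; left
          rw [rr_b, rr_b]
          have := cast_lt' h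
          linarith
        · have h' := cast_lt' (show (i : ℕ) < l by omega)
          by_cases hl : (l : ℕ) % 2 = 0
          · right; right; left
            rw [rr_c0 i hi, rr_c0 l hl]
            linarith
          · right; right; right
            rw [rr_d1 l hl]
            linarith
      · have n1 : (l : ℕ) ≠ j := fun h => hl2 (by rw [Fin.ext h])
        rcases Nat.lt_or_ge l j with h | h
        · right; right; right
          show (l : ℝ) + 1 < j + 1 / 2
          have := cast_lt' h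
          linarith
        · left
          show 4 * (k : ℝ) + 4 * j < 4 * k + 4 * l
          have := cast_lt' (show (j : ℕ) < l by omega)
          linarith
  · refine mk_up (eyes1 i hi) (-((j : ℝ) + 1 / 2)) ?_ ?_ ?_ ?_ ?_
    · rw [rr_b]
      show 4 * (i : ℝ) + 1 < 4 * k + 4 * j
      linarith
    · rw [rr_d1 i hi]; linarith
    · show -((j : ℝ) + 1) ≤ -(j + 1 / 2)
      linarith
    · show -((j : ℝ) + 1 / 2) ≤ j + 1
      linarith
    · rintro (l | l) hl1 hl2
      · have n1 : (l : ℕ) ≠ i := fun h => hl1 (by rw [Fin.ext h])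
        rcases Nat.lt_or_ge l i with h | h
        · right; left
          rw [rr_b, rr_b]
          have := cast_lt' h
          linarith
        · have h' := cast_lt' (show (i : ℕ) < l by omega)
          by_cases hl : (l : ℕ) % 2 = 0
          · right; right; left
            rw [rr_c0 l hl]
            linarith
          · right; right; right
            rw [rr_d1 i hi, rr_d1 l hl]
            linarith
      · have n1 : (l : ℕ) ≠ j := fun h => hl2 (by rw [Fin.ext h])
        rcases Nat.lt_or_ge l j with h | h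
        · right; right; left
          show -((j : ℝ) + 1 / 2) < -((l : ℝ) + 1)
          have := cast_lt' h
          linarith
        · left
          show 4 * (k : ℝ) + 4 * j < 4 * k + 4 * l
          have := cast_lt' (show (j : ℕ) < l by omega)
          linarith

lemma isCRVG (k : ℕ) : IsCRVG (PP k) := by
  refine ⟨rr k, eyes k, rr_disjoint, ?_⟩
  rintro (i | i) (j | j) hne
  · show ((i : ℕ) + 1 = j ∨ (j : ℕ) + 1 = i) ↔ _
    exact or_congr ⟨sees_ll i j, ll_sees i j⟩ ⟨sees_ll j i, ll_sees j i⟩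
  · exact iff_of_true trivial (Or.inl (sees_lr i j))
  · exact iff_of_true trivial (Or.inr (sees_lr j i))
  · show ((i : ℕ) + 1 = j ∨ (j : ℕ) + 1 = i) ↔ _
    exact or_congr ⟨sees_rr i j, rr_sees i j⟩ ⟨sees_rr j i, rr_sees j i⟩

/-- There is a graph that is an open RIG and a CRVG but not an RVG. -/
theorem result : ∃ (V : Type) (_ : Fintype V) (G : SimpleGraph V),
    IsOpenRIG G ∧ IsCRVG G ∧ ¬ IsRVG G :=
  ⟨_, inferInstance, PP 13, isOpenRIG 13, isCRVG 13, not_isRVG 13 (le_refl _)⟩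

end Pool.Agent.Results.MP_78e958_co.PathJoin
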